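import Pool.Agent.Lib.MP_d7b9cc_gt.V.Pre

/-! Data with a long period whose shears are flat at all multiples of a short period. -/

open Finset Function
open scoped ContDiff

namespace Pool.Agent.Lib.BallW

open Pool.Agent.Lib.BallU Pool.Agent.Lib.BallV

theorem data_flat {N : ℕ} {ρ : ℝ} {s : ℕ → (Fin (N + 1) → ℝ) → ℝ}
    {S : ℕ → Set (Fin (N + 1) → ℝ)} (h : Pre N ρ s S) (a : ℝ) (B : ℕ) :
    Data N a B (-1) 1 s fun _ => ∅ := by
  refine ⟨one_pos, h.smooth, fun k hk A j hA => h.flat k hk A (j * B) (by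
    rw [hA]
    push_cast
    ring), fun A a1 a2 => ?_, fun k A hA => hA.elim, fun A hA => hA.elim, fun A hA => hA.elim⟩
  have := sum_nonneg fun i (_ : i ∈ univ) => a1 i
  linarith

theorem data_pre {N T B : ℕ} {ρ : ℝ} {s : ℕ → (Fin (N + 1) → ℝ) → ℝ}
    {S : ℕ → Set (Fin (N + 1) → ℝ)} (h : Pre N ρ s S) {L O : (Fin N → ℕ) → ℝ}
    (hS : ∀ A ∈ S (N + 1), Q T (N + 1) L O N A) (hO : ∀ c, tot c < T → O c ≤ L c + B) :
    Data N T B ρ 1 s S := by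
  refine ⟨one_pos, h.smooth, (data_flat h 0 B).flat, h.init, h.step, fun A hA => ?_,
    fun A hA A' hA2 hE j hj => ?_⟩
  · have hA' := hS A hA
    refine ⟨fun i => hA'.pos i i.2, ?_⟩
    have e1 : ∑ i : Fin N, A i.succ ≤ ∑ i : Fin N, ((fl A i : ℝ) + 1) :=
      sum_le_sum fun i _ => (Nat.lt_floor_add_one _).le
    have e2 : ∑ i : Fin N, ((fl A i : ℝ) + 1) = (tot (fl A) : ℝ) + N := by
      rw [sum_add_distrib, tot, Nat.cast_sum]
      simp
    have e3 : ((tot (fl A) + (N + 1) : ℕ) : ℝ) ≤ T := Nat.cast_le.2 hA'.mar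
    push_cast at e3
    linarith
  · have hA' := hS A hA
    have hA3 := hS A' hA2
    have e : fl A' = fl A := by
      funext i
      rw [fl, fl, hE i]
    have hc : tot (fl A) < T := by
      have := hA'.mar
      omega
    have a1 := hA'.lo
    have a2 := hA'.hi
    have a3 := hA3.lo
    have a4 := hA3.hi
    rw [e] at a3 a4
    have a5 := hO _ hc
    have a6 : (0 : ℝ) < ((N + 1 : ℕ) : ℝ) := by positivity
    have b0 : (0 : ℝ) < B := by linarith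
    have b1 : (j : ℝ) * B < 1 * B := by linarith
    have b2 : (-1 : ℝ) * B < j * B := by linarith
    have b3 : j < 1 := by exact_mod_cast lt_of_mul_lt_mul_right b1 b0.le
    have b4 : -1 < j := by exact_mod_cast lt_of_mul_lt_mul_right b2 b0.le
    omega

/-- The data for several balls in unit cells. -/
theorem wdata_unit (N T B B₀ k : ℕ) (W : ℕ → ℕ) (ρ : ℕ → ℝ) {B' η : ℝ} (h0 : 0 < η) (h1 : η ≤ 1)
    (hT0 : 0 < T) (hT : ∀ i < k, ρ i + ((nxt N η)^[N] (N + 1) : ℕ) + N + 1 ≤ T)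
    (hW : ∀ i < k, ρ i + 1 + 2 * ((nxt N η)^[N] (N + 1) : ℕ) + 2 * N ≤ W i)
    (hv : ∑ j ∈ range k, ((W j : ℝ) + N) ^ (N + 1) < (N + 1) * B' * (T : ℝ) ^ N)
    (hB : B' + (k + 1) * η * T ≤ B) :
    ∃ (s : Fin k → ℕ → (Fin (N + 1) → ℝ) → ℝ) (S : Fin k → ℕ → Set (Fin (N + 1) → ℝ)),
      (∀ i : Fin k, Data N T B (ρ i) 1 (s i) (S i)) ∧
      (∀ i : Fin k, Data N T B₀ (-1) 1 (s i) fun _ => ∅) ∧
      ∀ i j, ∀ A ∈ S i (N + 1), ∀ A' ∈ S j (N + 1), (∀ l : Fin N, A l.succ = A' l.succ) →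
        ∀ m : ℤ, A' 0 - A 0 = m * B → i = j := by
  obtain ⟨L, hL, hO, hP⟩ := exists_chain N T k W hT0 h0.le h1 hv
  have up1 : ∀ i c, tot c < T → L i c ≤ L (i + 1) c := fun i c hc =>
    ((inv_OO ((hL i).zero h0.le) (W i) N le_rfl).a c hc).trans (hO i c hc)
  have mono : ∀ c, tot c < T → Monotone fun i => L i c := fun c hc =>
    monotone_nat_of_le_succ fun i => up1 i c hc
  choose s S hD hS using fun i : Fin k =>
    pre_of N T (W i) (N + 1) h0 (hL i) (hT i i.2) (hW i i.2)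
  refine ⟨s, S, fun i => data_pre (hD i) (hS i) fun c hc => ?_, fun i => data_flat (hD i) _ _,
    fun i j A hA A' hA' hE m hm => ?_⟩
  · have a1 := hO i c hc
    have a2 : L (i + 1) c ≤ L k c := mono c hc i.2
    have a3 := hP c hc
    have a4 : L 0 c ≤ L i c := mono c hc (Nat.zero_le _)
    linarith
  have a6 : (0 : ℝ) < ((N + 1 : ℕ) : ℝ) := by positivity
  have hc : tot (fl A) < T := by
    have := (hS i A hA).mar
    omega
  have a1 : L i (fl A) < A 0 := by linarith [(hS i A hA).lo]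
  have a2 : A 0 < OO T (W i) (L i) N (fl A) := by linarith [(hS i A hA).hi]
  have a3 : L j (fl A') < A' 0 := by linarith [(hS j A' hA').lo]
  have a4 : A' 0 < OO T (W j) (L j) N (fl A') := by linarith [(hS j A' hA').hi]
  have e : fl A' = fl A := by
    funext l
    rw [fl, fl, hE l]
  rw [e] at a3 a4
  have b1 := hO i _ hc
  have b2 := hO j _ hc
  have b3 : L (i + 1) (fl A) ≤ L k (fl A) := mono _ hc i.2
  have b4 : L (j + 1) (fl A) ≤ L k (fl A) := mono _ hc j.2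
  have b5 : L 0 (fl A) ≤ L i (fl A) := mono _ hc (Nat.zero_le _)
  have b6 : L 0 (fl A) ≤ L j (fl A) := mono _ hc (Nat.zero_le _)
  have b7 := hP _ hc
  have c0 : (0 : ℝ) < B := by linarith
  have c1 : (m : ℝ) * B < 1 * B := by linarith
  have c2 : (-1 : ℝ) * B < m * B := by linarith
  have c3 : m < 1 := by exact_mod_cast lt_of_mul_lt_mul_right c1 c0.le
  have c4 : -1 < m := by exact_mod_cast lt_of_mul_lt_mul_right c2 c0.le
  obtain rfl : m = 0 := by omega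
  simp only [Int.cast_zero, zero_mul] at hm
  rcases lt_trichotomy (i : ℕ) j with h | h | h
  · have : L (i + 1) (fl A) ≤ L j (fl A) := mono _ hc h
    linarith
  · exact Fin.ext h
  · have : L (j + 1) (fl A) ≤ L i (fl A) := mono _ hc h
    linarith

theorem exists_wdata (N k M : ℕ) {a b : ℝ} (ρ : ℕ → ℝ) (hb : 0 < b) (ha0 : 0 < a)
    (hρ : ∀ i, 0 ≤ ρ i) (ha : ∀ i < k, ρ i < a)
    (hv : ∑ i ∈ range k, ρ i ^ (N + 1) < (N + 1) * a ^ N * (M * b)) :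
    ∃ (ε : ℝ) (s : Fin k → ℕ → (Fin (N + 1) → ℝ) → ℝ) (S : Fin k → ℕ → Set (Fin (N + 1) → ℝ)),
      (∀ i : Fin k, Data N a (M * b) (ρ i) ε (s i) (S i)) ∧
      (∀ i : Fin k, ∃ ρ' S', Data N a b ρ' ε (s i) S') ∧
      ∀ i j, ∀ A ∈ S i (N + 1), ∀ A' ∈ S j (N + 1), (∀ l : Fin N, A l.succ = A' l.succ) →
        ∀ m : ℤ, A' 0 - A 0 = m * (M * b) → i = j := by
  have hM : 0 < ((N : ℝ) + 1) * a ^ N := by positivity
  obtain ⟨b', hb1, hb2⟩ := exists_between ((div_lt_iff₀' hM).2 hv)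
  have hb0 : 0 < b' := lt_of_le_of_lt
    (div_nonneg (sum_nonneg fun i _ => pow_nonneg (hρ i) _) hM.le) hb1
  rw [div_lt_iff₀' hM] at hb1
  have hk : (0 : ℝ) < (k + 1) * a := by positivity
  obtain ⟨η, hη⟩ : ∃ η : ℝ, η = min 1 ((M * b - b') / ((k + 1) * a)) := ⟨_, rfl⟩
  have h0 : 0 < η := by
    rw [hη]
    exact lt_min one_pos (div_pos (sub_pos.2 hb2) hk)
  have h1 : η ≤ 1 := hη ▸ min_le_left _ _
  have h2 : η * ((k + 1) * a) ≤ M * b - b' := (le_div_iff₀ hk).1 (hη ▸ min_le_right _ _)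
  obtain ⟨K, hK⟩ : ∃ K : ℕ, K = (nxt N η)^[N] (N + 1) := ⟨_, rfl⟩
  obtain ⟨B, hB, m0, m1, m2⟩ := exists_mmesh N k (b' := b') b (2 * K + 3 * N + 3) ρ ha0 ha
    (by linarith [mul_right_comm ((N : ℝ) + 1) (a ^ N) b'])
  have hB' : (0 : ℝ) < B := by exact_mod_cast hB
  obtain ⟨δ, hδ⟩ : ∃ δ : ℝ, δ = b / B := ⟨_, rfl⟩
  rw [← hδ] at m0 m1 m2
  have d0 : 0 < δ := hδ ▸ div_pos hb hB'
  have d1 : δ * B = b := by
    rw [hδ]
    field_simp
  have d2 : δ * ((M * B : ℕ) : ℝ) = M * b := by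
    rw [← d1]
    push_cast
    ring
  have k0 : (0 : ℝ) ≤ K := Nat.cast_nonneg _
  have n0 : (0 : ℝ) ≤ N := Nat.cast_nonneg _
  obtain ⟨r, hr⟩ : ∃ r : ℕ → ℝ, ∀ i, δ * r i = ρ i := ⟨fun i => ρ i / δ, fun i => by field_simp⟩
  obtain ⟨x, hx⟩ : ∃ x : ℝ, δ * x = a := ⟨a / δ, by field_simp⟩
  obtain ⟨y, hy⟩ : ∃ y : ℝ, δ * y = b' := ⟨b' / δ, by field_simp⟩
  have r0 : ∀ i, 0 ≤ r i := fun i => (mul_nonneg_iff_of_pos_left d0).1 (hr i ▸ hρ i)
  have x0 : 0 ≤ x := (mul_nonneg_iff_of_pos_left d0).1 (hx ▸ ha0.le)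
  have y0 : 0 ≤ y := (mul_nonneg_iff_of_pos_left d0).1 (hy ▸ hb0.le)
  have t1 : (⌊x⌋₊ : ℝ) ≤ x := Nat.floor_le x0
  have t2 : x < (⌊x⌋₊ : ℝ) + 1 := Nat.lt_floor_add_one x
  have w1 : ∀ i, r i ≤ (⌈r i⌉₊ : ℝ) := fun i => Nat.le_ceil _
  have w2 : ∀ i, (⌈r i⌉₊ : ℝ) < r i + 1 := fun i => Nat.ceil_lt_add_one (r0 i)
  have e3 : a - δ = δ * (x - 1) := by
    rw [← hx]
    ring
  have x1 : 0 < x - 1 := (mul_pos_iff_of_pos_left d0).1 (e3 ▸ m0)
  have m3 : ∀ i < k, r i + (2 * K + 3 * N + 3) ≤ x - 1 := fun i hi => by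
    refine le_of_mul_le_mul_left ?_ d0
    have := m1 i (mem_range.2 hi)
    rw [mul_add, mul_sub, hr, hx]
    linarith
  have m4 : ∑ i ∈ range k, (r i + (2 * K + 3 * N + 3)) ^ (N + 1) < (N + 1) * y * (x - 1) ^ N := by
    refine lt_of_mul_lt_mul_left ?_ (pow_pos d0 (N + 1)).le
    have e1 : ∀ i, δ ^ (N + 1) * (r i + (2 * K + 3 * N + 3)) ^ (N + 1) =
        (ρ i + (2 * K + 3 * N + 3) * δ) ^ (N + 1) := fun i => by
      rw [← mul_pow, ← hr, mul_add, mul_comm δ (2 * K + 3 * N + 3)]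
    have e2 : δ ^ (N + 1) * ((N + 1) * y * (x - 1) ^ N) = (N + 1) * b' * (a - δ) ^ N := by
      rw [e3, ← hy, mul_pow]
      ring
    rw [mul_sum, sum_congr rfl fun i _ => e1 i, e2]
    exact m2
  obtain ⟨s, S, hD, hF, hX⟩ := wdata_unit N ⌊x⌋₊ (M * B) B k (fun i => ⌈r i⌉₊ + 2 * K + 2 * N + 1) r
    (B' := y) h0 h1 (Nat.floor_pos.2 (by linarith))
    (fun i hi => by rw [← hK]; linarith [m3 i hi])
    (fun i _ => by rw [← hK]; push_cast; linarith [w1 i])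
    (by
      have e1 : ∑ i ∈ range k, (((⌈r i⌉₊ + 2 * K + 2 * N + 1 : ℕ) : ℝ) + N) ^ (N + 1) ≤
          ∑ i ∈ range k, (r i + (2 * K + 3 * N + 3)) ^ (N + 1) := sum_le_sum fun i _ =>
        pow_le_pow_left₀ (by positivity) (by push_cast; linarith [w2 i]) _
      have e2 : (x - 1) ^ N ≤ (⌊x⌋₊ : ℝ) ^ N := pow_le_pow_left₀ (by linarith) (by linarith) _
      exact e1.trans_lt (m4.trans_le (mul_le_mul_of_nonneg_left e2 (by positivity))))
    (by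
      refine le_of_mul_le_mul_left ?_ d0
      have e1 : (k + 1) * η * (δ * (⌊x⌋₊ : ℝ)) ≤ (k + 1) * η * (δ * x) :=
        mul_le_mul_of_nonneg_left (mul_le_mul_of_nonneg_left t1 d0.le) (by positivity)
      rw [hx] at e1
      rw [mul_add, hy, d2]
      linarith [mul_left_comm δ ((k + 1) * η) (⌊x⌋₊ : ℝ)])
  refine ⟨δ * 1, fun i l A => δ * s i l (δ⁻¹ • A), fun i l => {A | δ⁻¹ • A ∈ S i l},
    fun i => ?_, fun i => ?_,
    fun i j A hA A' hA' hE m hm => hX i j _ hA _ hA' (fun l => ?_) m ?_⟩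
  · have := (hD i).scale' (a' := a) d0 (hx ▸ mul_le_mul_of_nonneg_left t1 d0.le)
    rwa [d2, hr] at this
  · have := (hF i).scale' (a' := a) d0 (hx ▸ mul_le_mul_of_nonneg_left t1 d0.le)
    rw [d1] at this
    exact ⟨_, _, this⟩
  · rw [Pi.smul_apply, Pi.smul_apply, hE l]
  · rw [Pi.smul_apply, Pi.smul_apply, smul_eq_mul, smul_eq_mul, ← mul_sub, hm, ← d2]
    field_simp

end Pool.Agent.Lib.BallW
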