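import Pool.Agent.Lib.MP_d7b9cc_gt.W.Dat

/-! Several balls in a ball times a long torus, away from all points of the short lattice. -/

open Finset Function
open scoped ContDiff

namespace Pool.Agent.Lib.BallW

open Pool.Agent.Lib.BallU Pool.Agent.Lib.BallT6

theorem geo_multi (E : Type) [NormedAddCommGroup E] [NormedSpace ℝ E] {N : ℕ}
    {a b ρ ε b₀ ρ' : ℝ}
    {s : ℕ → (Fin (N + 1) → ℝ) → ℝ} {S S' : ℕ → Set (Fin (N + 1) → ℝ)} (h : Data N a b ρ ε s S)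
    (h' : Data N a b₀ ρ' ε s S') :
    ∃ Ψ : (ℕ → ℂ) → ℕ → ℂ,
      (∀ z, ∑ l ∈ range (N + 1), mu (z l) ≤ ρ → Good E (N + 1) Ψ z ∧
        ∑ i ∈ range N, mu (Ψ z (i + 1)) < a ∧
        (∀ k l : ℤ, Ψ z 0 ≠ (k : ℂ) * (b₀ : ℂ) + (l : ℂ) * Complex.I) ∧
        ∃ A ∈ S (N + 1), A 0 = (Ψ z 0).re ∧ ∀ i : Fin N, A i.succ = mu (Ψ z (i + 1))) ∧
      ∀ z z', ∑ l ∈ range (N + 1), mu (z l) ≤ ρ → ∑ l ∈ range (N + 1), mu (z' l) ≤ ρ →
        (∀ i < N, Ψ z (i + 1) = Ψ z' (i + 1)) → ∀ k l : ℤ,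
          Ψ z' 0 - Ψ z 0 = (k : ℂ) * (b : ℂ) + (l : ℂ) * Complex.I → ∀ j < N + 1, z j = z' j := by
  obtain ⟨f, hf, h1, h2⟩ := exists_oneSided ρ h.eps
  have hi : ∀ w, -(1 / 2) < (f w).im ∧ (f w).im < 1 / 2 := fun w => (h1 w).2
  have hS : ∀ z : ℕ → ℂ, ∑ l ∈ range (N + 1), mu (z l) ≤ ρ →
      act N (N + 1) (chain N f s (N + 1) z) ∈ S (N + 1) := fun z hz =>
    (chain_mem h (fun w => (h1 w).1) h2 hz (N + 1) le_rfl).1
  have hp : ∀ z : ℕ → ℂ, ∑ l ∈ range (N + 1), mu (z l) ≤ ρ →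
      ∀ i < N, 0 < (chain N f s (N + 1) z (i + 1)).re := fun z hz i hiN => by
    have := (h.fin_pos _ (hS z hz)).1 ⟨i, hiN⟩
    rwa [act_last] at this
  have e0 : ∀ w : ℕ → ℂ, fin w 0 = w 0 + Complex.I / 2 := fun _ => rfl
  have e1 : ∀ (w : ℕ → ℂ) (i : ℕ), fin w (i + 1) = pol (w (i + 1)) := fun _ _ => rfl
  refine ⟨fin ∘ chain N f s (N + 1), fun z hz => ⟨?_, ?_, fun k l hkl => ?_,
      _, hS z hz, ?_, fun i => ?_⟩,
    fun z z' hz hz' hE k l hkl => ?_⟩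
  · exact Good.comp (good_fin (hp z hz)) (good_chain E hf h.smooth _ z)
  · have := (h.fin_pos _ (hS z hz)).2
    rw [sum_congr rfl fun (i : Fin N) _ => act_last (chain N f s (N + 1) z) i.succ] at this
    simp only [Fin.val_succ] at this
    rw [Fin.sum_univ_eq_sum_range (fun i => (chain N f s (N + 1) z (i + 1)).re)] at this
    refine lt_of_eq_of_lt (sum_congr rfl fun i hiN => ?_) this
    rw [comp_apply, e1, mu_pol (hp z hz i (mem_range.mp hiN)).le]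
  · rw [comp_apply, e0] at hkl
    have r := congrArg Complex.re hkl
    have m := congrArg Complex.im hkl
    simp at r m
    obtain ⟨p1, p2⟩ := chain_punct h' hi z k N (Nat.lt_succ_self N) r
    have b1 : (l : ℝ) < 1 := by linarith
    have b2 : (0 : ℝ) < l := by linarith
    have c1 : l < 1 := by exact_mod_cast b1
    have c2 : 0 < l := by exact_mod_cast b2
    omega
  · rw [act_last, comp_apply, e0]
    simp
  · rw [act_last, comp_apply, e1, mu_pol (hp z hz i i.2).le, Fin.val_succ]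
  · have hR : ∀ i < N, (chain N f s (N + 1) z (i + 1)).re = (chain N f s (N + 1) z' (i + 1)).re ∧
        ∃ m : ℤ, (chain N f s (N + 1) z' (i + 1)).im - (chain N f s (N + 1) z (i + 1)).im = m :=
      fun i hiN => pol_rel (hp z hz i hiN) (hp z' hz' i hiN) (hE i hiN)
    rw [comp_apply, comp_apply, e0, e0, add_sub_add_right_eq_sub] at hkl
    have r := congrArg Complex.re hkl
    have m := congrArg Complex.im hkl
    simp at r m
    have hk : k = 0 := h.fin_inj _ (hS z hz) _ (hS z' hz')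
      (fun i => by rw [act_last, act_last]; exact (hR i i.2).1) k
      (by rw [act_last, act_last]; exact r)
    rw [hk] at r
    have hrel : Rel N (N + 1) (chain N f s (N + 1) z) (chain N f s (N + 1) z') := by
      refine ⟨fun i hiN => ?_, fun i h1 h2 => absurd h2 (not_lt.mpr h1)⟩
      cases i with
      | zero => exact ⟨by simp at r; linarith, l, m⟩
      | succ i => exact hR i (by omega)
    exact fun j hj => (chain_back hf hi (N + 1) le_rfl hrel).2 j (Nat.zero_le _) hj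

theorem balls_multi (E : Type) [NormedAddCommGroup E] [NormedSpace ℝ E] (N k M : ℕ) {a b : ℝ}
    (ρ : ℕ → ℝ) (hb : 0 < b) (ha0 : 0 < a) (hρ : ∀ i, 0 ≤ ρ i) (ha : ∀ i < k, ρ i < a)
    (hv : ∑ i ∈ range k, ρ i ^ (N + 1) < (N + 1) * a ^ N * (M * b)) :
    ∃ Ψ : Fin k → (ℕ → ℂ) → ℕ → ℂ,
      (∀ (i : Fin k) z, ∑ l ∈ range (N + 1), mu (z l) ≤ ρ i → Good E (N + 1) (Ψ i) z ∧
        ∑ l ∈ range N, mu (Ψ i z (l + 1)) < a ∧
        ∀ m l : ℤ, Ψ i z 0 ≠ (m : ℂ) * (b : ℂ) + (l : ℂ) * Complex.I) ∧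
      ∀ (i j : Fin k) z z', ∑ l ∈ range (N + 1), mu (z l) ≤ ρ i →
        ∑ l ∈ range (N + 1), mu (z' l) ≤ ρ j → (∀ l < N, Ψ i z (l + 1) = Ψ j z' (l + 1)) →
        ∀ m l : ℤ, Ψ j z' 0 - Ψ i z 0 = (m : ℂ) * ((M * b : ℝ) : ℂ) + (l : ℂ) * Complex.I →
          i = j ∧ ∀ l < N + 1, z l = z' l := by
  obtain ⟨ε, s, S, h, h', hX⟩ := exists_wdata N k M ρ hb ha0 hρ ha hv
  choose ρ' S' h' using h'
  choose Ψ h1 h2 using fun i => geo_multi E (h i) (h' i)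
  refine ⟨Ψ, fun i z hz => ⟨(h1 i z hz).1, (h1 i z hz).2.1, (h1 i z hz).2.2.1⟩,
    fun i j z z' hz hz' hE m l hm => ?_⟩
  obtain ⟨A, hA, a0, a1⟩ := (h1 i z hz).2.2.2
  obtain ⟨A', hA', b0, b1⟩ := (h1 j z' hz').2.2.2
  obtain rfl : i = j := hX i j A hA A' hA' (fun l => by rw [a1, b1, hE l l.2]) m (by
    have := congrArg Complex.re hm
    rw [a0, b0]
    simpa using this)
  exact ⟨rfl, h2 i z z' hz hz' hE m l hm⟩

end Pool.Agent.Lib.BallW
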