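import Pool.Agent.Results.MP_d7b9cc_gt.RationalEllipsoids

/-! The two earlier packing theorems are special cases. -/

open scoped ContDiff

namespace Pool.Agent.Lib.BallW

open Pool.Agent.Results.MP_d7b9cc_gt.RationalEllipsoids

theorem allPackings (N k : ℕ) (a b : ℝ) (r : Fin k → ℝ) (ha0 : 0 < a) (hb : 0 < b)
    (ha : ∀ i, Real.pi * r i ^ 2 < a)
    (hv : ∑ i, (Real.pi * r i ^ 2) ^ (N + 1) < (N + 1) * a ^ N * b) :
    ∃ (U : Fin k → Set (Fin (N + 1) → ℂ)) (ψ : Fin k → (Fin (N + 1) → ℂ) → Fin (N + 1) → ℂ),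
      (∀ i, IsOpen (U i) ∧
        (∀ z : Fin (N + 1) → ℂ, ∑ j, ‖z j‖ ^ 2 ≤ r i ^ 2 → z ∈ U i) ∧
        ContDiffOn ℝ ∞ (ψ i) (U i) ∧
        (∀ z ∈ U i, ∀ v w,
          sympForm (fderiv ℝ (ψ i) z v) (fderiv ℝ (ψ i) z w) = sympForm v w) ∧
        (∀ z ∈ U i, Real.pi * ∑ j : Fin N, ‖ψ i z j.succ‖ ^ 2 < a) ∧
        ∀ z ∈ U i, ∀ m l : ℤ, ψ i z 0 ≠ (m : ℂ) * (b : ℂ) + (l : ℂ) * Complex.I) ∧
      ∀ i i', ∀ z ∈ U i, ∀ z' ∈ U i', (∀ j : Fin N, ψ i z j.succ = ψ i' z' j.succ) →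
        (∃ m l : ℤ, ψ i' z' 0 - ψ i z 0 = (m : ℂ) * (b : ℂ) + (l : ℂ) * Complex.I) →
          i = i' ∧ z = z' := by
  obtain ⟨U, ψ, h1, h2⟩ := result N k (fun _ => 1) a b r (fun _ => one_pos) ha0 hb ha
    (hv.trans_eq (by simp))
  refine ⟨U, ψ, fun i => ?_, h2⟩
  obtain ⟨c1, c2, c3, c4, c5, c6⟩ := h1 i
  refine ⟨c1, c2, c3, c4, fun z hz => ?_, c6⟩
  have := c5 z hz
  simp only [Nat.cast_one, one_mul] at this
  rwa [← Finset.sum_div, ← mul_div_assoc, div_lt_one ha0] at this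

theorem ellipsoidPackings (N k m : ℕ) (a b : ℝ) (r : Fin k → ℝ) (hm : 0 < m) (ha0 : 0 < a) (hb : 0 < b)
    (ha : ∀ i, Real.pi * r i ^ 2 < a)
    (hv : ∑ i, (Real.pi * r i ^ 2) ^ (N + 2) < (N + 2) * m * a ^ (N + 1) * b) :
    ∃ (U : Fin k → Set (Fin (N + 2) → ℂ)) (ψ : Fin k → (Fin (N + 2) → ℂ) → Fin (N + 2) → ℂ),
      (∀ i, IsOpen (U i) ∧
        (∀ z : Fin (N + 2) → ℂ, ∑ j, ‖z j‖ ^ 2 ≤ r i ^ 2 → z ∈ U i) ∧
        ContDiffOn ℝ ∞ (ψ i) (U i) ∧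
        (∀ z ∈ U i, ∀ v w,
          sympForm (fderiv ℝ (ψ i) z v) (fderiv ℝ (ψ i) z w) = sympForm v w) ∧
        (∀ z ∈ U i, Real.pi * (∑ j : Fin N, ‖ψ i z j.castSucc.succ‖ ^ 2 +
          ‖ψ i z (Fin.last (N + 1))‖ ^ 2 / m) < a) ∧
        ∀ z ∈ U i, ∀ s t : ℤ, ψ i z 0 ≠ (s : ℂ) * (b : ℂ) + (t : ℂ) * Complex.I) ∧
      ∀ i i', ∀ z ∈ U i, ∀ z' ∈ U i', (∀ j : Fin (N + 1), ψ i z j.succ = ψ i' z' j.succ) →
        (∃ s t : ℤ, ψ i' z' 0 - ψ i z 0 = (s : ℂ) * (b : ℂ) + (t : ℂ) * Complex.I) →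
          i = i' ∧ z = z' := by
  obtain ⟨U, ψ, h1, h2⟩ := result (N + 1) k (Fin.snoc (fun _ => 1) m) a b r
    (fun j => Fin.lastCases (by simpa using hm) (fun j => by simp) j) ha0 hb ha
    (hv.trans_eq (by
      rw [Fin.prod_univ_castSucc]
      simp only [Fin.snoc_castSucc, Fin.snoc_last, Nat.cast_one, one_mul, Finset.prod_const,
        Finset.card_univ, Fintype.card_fin]
      push_cast
      ring))
  refine ⟨U, ψ, fun i => ?_, h2⟩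
  obtain ⟨c1, c2, c3, c4, c5, c6⟩ := h1 i
  refine ⟨c1, c2, c3, c4, fun z hz => ?_, c6⟩
  have := c5 z hz
  rw [Fin.sum_univ_castSucc] at this
  simp only [Fin.snoc_castSucc, Fin.snoc_last, Nat.cast_one, one_mul, Fin.succ_last] at this
  rwa [← Finset.sum_div, ← div_div, ← add_div, ← mul_div_assoc, div_lt_one ha0] at this

end Pool.Agent.Lib.BallW
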