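import Pool.Agent.Lib.MP_d7b9cc_gt.W.Geo

/-! Several balls in an ellipsoid with integral axis ratios times a punctured torus. -/

open Finset Function
open scoped ContDiff

namespace Pool.Agent.Lib.BallW

open Pool.Agent.Lib.BallU Pool.Agent.Lib.BallT6

variable {E : Type} [NormedAddCommGroup E] [NormedSpace ℝ E]

/-- The same planar map in all coordinates but the first. -/
def tl (g : ℂ → ℂ) (z : ℕ → ℂ) : ℕ → ℂ := cons (z 0) fun i => g (z (i + 1))

theorem good_tl {N : ℕ} {g : ℂ → ℂ} {z : ℕ → ℂ} (hz : ∀ i < N, ContDiffAt ℝ ∞ g (z (i + 1)) ∧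
    ∀ v w, om (fderiv ℝ g (z (i + 1)) v) (fderiv ℝ g (z (i + 1)) w) = om v w) :
    Good E (N + 1) (tl g) z := by
  intro Z p hp hs
  subst hp
  obtain ⟨h0, h1⟩ := sm_succ.mp hs
  refine ⟨sm_succ.mpr ⟨h0, fun i hi => ContDiffAt.comp (g := g) (f := fun x => Z x (i + 1)) p
      (hz i hi).1 (h1 i hi)⟩, fun v w => ?_⟩
  rw [PB_succ, PB_succ]
  simp only [tl, cons_zero, cons_succ]
  rw [sum_congr rfl fun i hi => pb_comp (F := fun x => Z x (i + 1))
    (hz i (mem_range.mp hi)).1 (hz i (mem_range.mp hi)).2 (h1 i (mem_range.mp hi)) v w]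

/-- Stretch the tail coordinates and turn them by an angle that depends on the first one. -/
noncomputable def turn (N : ℕ) (φ φ' : ℝ → ℝ) (m c : ℕ → ℝ) (z : ℕ → ℂ) : ℕ → ℂ :=
  cons (z 0 + ((φ' (z 0).re * ∑ i ∈ range N, c i * (m i * (z (i + 1)).re) : ℝ) : ℂ) * Complex.I)
    fun i => ((m i * (z (i + 1)).re : ℝ) : ℂ) +
      (((m i)⁻¹ * (z (i + 1)).im + c i * φ (z 0).re : ℝ) : ℂ) * Complex.I

section
variable {N : ℕ} {φ φ' : ℝ → ℝ} {m c : ℕ → ℝ} (z : ℕ → ℂ)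

theorem turn_re0 : (turn N φ φ' m c z 0).re = (z 0).re := by simp [turn]

theorem turn_im0 : (turn N φ φ' m c z 0).im =
    (z 0).im + φ' (z 0).re * ∑ i ∈ range N, c i * (m i * (z (i + 1)).re) := by
  simp only [turn, cons_zero, Complex.add_im, Complex.mul_im, Complex.ofReal_re, Complex.I_im,
    Complex.ofReal_im, Complex.I_re, mul_one, mul_zero, add_zero]

theorem turn_re (i : ℕ) : (turn N φ φ' m c z (i + 1)).re = m i * (z (i + 1)).re := by
  simp only [turn, cons_succ, Complex.add_re, Complex.mul_re, Complex.ofReal_re, Complex.I_im,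
    Complex.ofReal_im, Complex.I_re, mul_one, mul_zero, add_zero, sub_zero]

theorem turn_im (i : ℕ) : (turn N φ φ' m c z (i + 1)).im =
    (m i)⁻¹ * (z (i + 1)).im + c i * φ (z 0).re := by
  simp only [turn, cons_succ, Complex.add_im, Complex.mul_im, Complex.ofReal_re, Complex.I_im,
    Complex.ofReal_im, Complex.I_re, mul_one, mul_zero, add_zero, zero_add]

theorem good_turn (h1 : ContDiff ℝ ∞ φ) (h2 : ContDiff ℝ ∞ φ') (h3 : ∀ x, HasDerivAt φ (φ' x) x)
    (hm : ∀ i, m i ≠ 0) : Good E (N + 1) (turn N φ φ' m c) z := by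
  intro Z p _ hs
  obtain ⟨z0, z1⟩ := sm_succ.mp hs
  have cφ : ContDiffAt ℝ ∞ (fun x => φ (Z x 0).re) p := h1.contDiffAt.comp p (cd_re z0)
  have cφ' : ContDiffAt ℝ ∞ (fun x => φ' (Z x 0).re) p := h2.contDiffAt.comp p (cd_re z0)
  have cX : ∀ i < N, ContDiffAt ℝ ∞ (fun x => m i * (Z x (i + 1)).re) p := fun i hi =>
    contDiffAt_const.mul (cd_re (z1 i hi))
  have cX' : ∀ i ∈ range N, ContDiffAt ℝ ∞ (fun x => c i * (m i * (Z x (i + 1)).re)) p :=
    fun i hi => contDiffAt_const.mul (cX i (mem_range.1 hi))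
  have cS : ContDiffAt ℝ ∞ (fun x => ∑ i ∈ range N, c i * (m i * (Z x (i + 1)).re)) p :=
    ContDiffAt.sum cX'
  have cY : ∀ i < N, ContDiffAt ℝ ∞ (fun x => (m i)⁻¹ * (Z x (i + 1)).im) p := fun i hi =>
    contDiffAt_const.mul (cd_im (z1 i hi))
  have cF : Sm (N + 1) (fun x => turn N φ φ' m c (Z x)) p := sm_succ.mpr
    ⟨z0.add ((cd_ofReal (cφ'.mul cS)).mul contDiffAt_const), fun i hi =>
      (cd_ofReal (cX i hi)).add ((cd_ofReal ((cY i hi).add (contDiffAt_const.mul cφ))).mul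
        contDiffAt_const)⟩
  obtain ⟨f0, f1⟩ := sm_succ.mp cF
  refine ⟨cF, fun v w => ?_⟩
  have dφ : ∀ u, dv (fun x => φ (Z x 0).re) p u =
      φ' (Z p 0).re * dv (fun x => (Z x 0).re) p u := fun u => dv_comp (h3 _) (cd_re z0) u
  have dφ' : ∀ u, dv (fun x => φ' (Z x 0).re) p u =
      deriv φ' (Z p 0).re * dv (fun x => (Z x 0).re) p u := fun u =>
    dv_comp (h2.differentiable (by simp) _).hasDerivAt (cd_re z0) u
  have dS : ∀ u, dv (fun x => ∑ i ∈ range N, c i * (m i * (Z x (i + 1)).re)) p u =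
      ∑ i ∈ range N, c i * (m i * dv (fun x => (Z x (i + 1)).re) p u) := fun u => by
    rw [dv_sum (f := fun i x => c i * (m i * (Z x (i + 1)).re)) cX']
    refine sum_congr rfl fun i hi => ?_
    rw [dv_const_mul _ (cX i (mem_range.1 hi)), dv_const_mul _ (cd_re (z1 i (mem_range.1 hi)))]
  have k1 : ∀ i ∈ range N, pb (fun x => turn N φ φ' m c (Z x) (i + 1)) p v w =
      pb (fun x => Z x (i + 1)) p v w + φ' (Z p 0).re *
        (c i * (m i * dv (fun x => (Z x (i + 1)).re) p v) * dv (fun x => (Z x 0).re) p w -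
          dv (fun x => (Z x 0).re) p v * (c i * (m i * dv (fun x => (Z x (i + 1)).re) p w))) := by
    intro i hi
    have hi' := mem_range.1 hi
    rw [pb_eq (f1 i hi'), pb_eq (z1 i hi')]
    simp only [turn_re, turn_im]
    rw [dv_add (cY i hi') (contDiffAt_const.mul cφ), dv_add (cY i hi') (contDiffAt_const.mul cφ),
      dv_const_mul _ (cd_re (z1 i hi')), dv_const_mul _ (cd_re (z1 i hi')),
      dv_const_mul _ (cd_im (z1 i hi')), dv_const_mul _ (cd_im (z1 i hi')),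
      dv_const_mul _ cφ, dv_const_mul _ cφ, dφ, dφ]
    have := hm i
    field_simp
    ring
  rw [PB_succ, PB_succ, sum_congr rfl k1, sum_add_distrib, ← mul_sum, sum_sub_distrib, ← sum_mul,
    ← mul_sum, pb_eq f0, pb_eq z0]
  simp only [turn_re0, turn_im0]
  rw [dv_add (cd_im z0) (cφ'.mul cS), dv_add (cd_im z0) (cφ'.mul cS), dv_mul cφ' cS,
    dv_mul cφ' cS, dS, dS, dφ', dφ']
  ring

end

/-- A lift of a circle map of degree one that is flat at the multiples of the period. -/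
theorem exists_lift {b : ℝ} (hb : 0 < b) : ∃ φ φ' : ℝ → ℝ, ContDiff ℝ ∞ φ ∧ ContDiff ℝ ∞ φ' ∧
    (∀ x, HasDerivAt φ (φ' x) x) ∧ (∀ x (j : ℤ), φ (x + j * b) = φ x + j) ∧
    (∀ x (j : ℤ), φ' (x + j * b) = φ' x) ∧ φ' 0 = 0 := by
  have hπ := Real.pi_pos
  have e : ∀ x (j : ℤ), 2 * Real.pi / b * (x + j * b) = 2 * Real.pi / b * x + j * (2 * Real.pi) :=
    fun x j => by field_simp
  refine ⟨fun x => b⁻¹ * x - (2 * Real.pi)⁻¹ * Real.sin (2 * Real.pi / b * x),
    fun x => b⁻¹ - b⁻¹ * Real.cos (2 * Real.pi / b * x), by fun_prop, by fun_prop, fun x => ?_,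
    fun x j => ?_, fun x j => ?_, by simp⟩
  · have := ((hasDerivAt_id x).const_mul b⁻¹).sub
      (((hasDerivAt_id x).const_mul (2 * Real.pi / b)).sin.const_mul (2 * Real.pi)⁻¹)
    refine this.congr_deriv ?_
    simp only [id]
    field_simp
  · simp only [e, Real.sin_add_int_mul_two_pi]
    field_simp
    ring
  · simp only [e, Real.cos_add_int_mul_two_pi]

/-- The box is a fundamental domain of the cyclic group of turns. -/
theorem turn_dvd (m : ℕ → ℕ) (hm : ∀ i, 0 < m i) (j : ℤ) (d : ℕ → ℝ) : ∀ N : ℕ,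
    (∀ i < N, -1 < d i ∧ d i < 1) →
    (∀ i < N, ∃ n : ℤ, (m i : ℝ)⁻¹ * d i + ((∏ l ∈ range (i + 1), m l : ℕ) : ℝ)⁻¹ * j = n) →
    (∃ j' : ℤ, j = j' * (∏ l ∈ range N, m l : ℕ)) ∧ ∀ i < N, d i = 0 := by
  intro N
  induction N with
  | zero => exact fun _ _ => ⟨⟨j, by simp⟩, fun i hi => absurd hi (Nat.not_lt_zero _)⟩
  | succ N ih =>
    intro h1 h2
    obtain ⟨⟨j', e⟩, h3⟩ := ih (fun i hi => h1 i (by omega)) (fun i hi => h2 i (by omega))
    obtain ⟨n, hn⟩ := h2 N (Nat.lt_succ_self N)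
    have p1 : (0 : ℝ) < m N := by exact_mod_cast hm N
    have p2 : (0 : ℝ) < ((∏ l ∈ range N, m l : ℕ) : ℝ) := by
      exact_mod_cast prod_pos fun l _ => hm l
    have e1 : d N = ((n * m N - j' : ℤ) : ℝ) := by
      rw [e, prod_range_succ, Nat.cast_mul, Int.cast_mul, Int.cast_natCast] at hn
      rw [Int.cast_sub, Int.cast_mul, Int.cast_natCast, ← hn]
      field_simp
      ring
    obtain ⟨a1, a2⟩ := h1 N (Nat.lt_succ_self N)
    rw [e1] at a1 a2
    have b1 : -1 < n * m N - j' := by exact_mod_cast a1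
    have b2 : n * m N - j' < 1 := by exact_mod_cast a2
    have b3 : n * m N - j' = 0 := by omega
    refine ⟨⟨n, ?_⟩, fun i hi => ?_⟩
    · rw [e, prod_range_succ, show j' = n * m N by omega]
      push_cast
      ring
    · rcases Nat.lt_succ_iff_lt_or_eq.1 hi with h | h
      · exact h3 i h
      · rw [h, e1, b3, Int.cast_zero]

theorem balls_int (E : Type) [NormedAddCommGroup E] [NormedSpace ℝ E] (N k : ℕ) (m : ℕ → ℕ)
    {a b ε : ℝ} (ρ : ℕ → ℝ) (hm : ∀ i, 0 < m i) (hb : 0 < b) (ha0 : 0 < a) (hε : 0 < ε)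
    (hρ : ∀ i, 0 ≤ ρ i) (ha : ∀ i < k, ρ i < a)
    (hv : ∑ i ∈ range k, ρ i ^ (N + 1) < (N + 1) * a ^ N * ((∏ l ∈ range N, m l : ℕ) * b)) :
    ∃ Ψ : Fin k → (ℕ → ℂ) → ℕ → ℂ,
      (∀ (i : Fin k) z, ∑ l ∈ range (N + 1), mu (z l) ≤ ρ i → Good E (N + 1) (Ψ i) z ∧
        ∑ l ∈ range N, mu (Ψ i z (l + 1)) / m l < a + N * ε ∧
        ∀ s t : ℤ, Ψ i z 0 ≠ (s : ℂ) * (b : ℂ) + (t : ℂ) * Complex.I) ∧
      ∀ (i j : Fin k) z z', ∑ l ∈ range (N + 1), mu (z l) ≤ ρ i →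
        ∑ l ∈ range (N + 1), mu (z' l) ≤ ρ j → (∀ l < N, Ψ i z (l + 1) = Ψ j z' (l + 1)) →
        ∀ s t : ℤ, Ψ j z' 0 - Ψ i z 0 = (s : ℂ) * (b : ℂ) + (t : ℂ) * Complex.I →
          i = j ∧ ∀ l < N + 1, z l = z' l := by
  obtain ⟨Ψ, A, C⟩ := balls_multi E N k (∏ l ∈ range N, m l) ρ hb ha0 hρ ha hv
  obtain ⟨f, hf, f1, f2⟩ := exists_oneSided a hε
  obtain ⟨φ, φ', g1, g2, g3, g4, g5, g6⟩ := exists_lift hb
  have p1 : ∀ i, (0 : ℝ) < m i := fun i => by exact_mod_cast hm i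
  obtain ⟨Θ, hΘ⟩ : ∃ Θ : (ℕ → ℂ) → ℕ → ℂ, Θ = turn N φ φ' (fun i => (m i : ℝ))
    fun i => ((∏ l ∈ range (i + 1), m l : ℕ) : ℝ)⁻¹ := ⟨_, rfl⟩
  have t0 : ∀ (g : ℂ → ℂ) (w : ℕ → ℂ), tl g w 0 = w 0 := fun _ _ => rfl
  have t1 : ∀ (g : ℂ → ℂ) (w : ℕ → ℂ) (i : ℕ), tl g w (i + 1) = g (w (i + 1)) := fun _ _ _ => rfl
  have r1 : ∀ (w : ℕ → ℂ) i, (Θ (tl f w) (i + 1)).re = m i * (f (w (i + 1))).re := fun w i => by
    rw [hΘ, turn_re, t1]
  have pos : ∀ (w : ℕ → ℂ) i, 0 < (Θ (tl f w) (i + 1)).re := fun w i => by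
    rw [r1]
    exact mul_pos (p1 i) (f1 _).1
  refine ⟨fun i => tl pol ∘ Θ ∘ tl f ∘ Ψ i, fun i z hz => ⟨?_, ?_, fun s t h => ?_⟩,
    fun i j z z' hz hz' hE s t h => ?_⟩
  · refine Good.comp (good_tl fun l _ => contDiffAt_pol (pos _ l)) (Good.comp ?_
      (Good.comp (good_tl fun l _ => ⟨hf.smooth.contDiffAt, hf.symp _⟩) (A i z hz).1))
    rw [hΘ]
    exact good_turn _ g1 g2 g3 fun l => (p1 l).ne'
  · have a1 := (A i z hz).2.1
    have a2 : ∑ l ∈ range N, mu ((tl pol ∘ Θ ∘ tl f ∘ Ψ i) z (l + 1)) / m l ≤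
        ∑ l ∈ range N, (mu (Ψ i z (l + 1)) + ε) := sum_le_sum fun l hl => by
      simp only [comp_apply]
      rw [t1, mu_pol (pos _ l).le, r1, mul_div_cancel_left₀ _ (p1 l).ne']
      exact f2 _ ((single_le_sum (f := fun l => mu (Ψ i z (l + 1))) (fun _ _ => mu_nonneg _)
        hl).trans a1.le)
    rw [sum_add_distrib, sum_const, card_range, nsmul_eq_mul] at a2
    linarith
  · simp only [comp_apply] at h
    rw [t0] at h
    have r := congrArg Complex.re h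
    have r' := congrArg Complex.im h
    rw [hΘ, turn_re0, t0] at r
    rw [hΘ, turn_im0, t0] at r'
    simp at r
    have e := g5 0 s
    rw [zero_add, ← r, g6] at e
    rw [e, zero_mul, add_zero] at r'
    refine (A i z hz).2.2 s t (Complex.ext ?_ r')
    simp [r]
  · simp only [comp_apply] at h hE
    rw [t0, t0] at h
    have r := congrArg Complex.re h
    have r' := congrArg Complex.im h
    rw [Complex.sub_re, hΘ, turn_re0, turn_re0, t0, t0] at r
    rw [Complex.sub_im, hΘ, turn_im0, turn_im0, t0, t0] at r'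
    have r0 : (Ψ j z' 0).re = (Ψ i z 0).re + s * b := by
      simp at r
      linarith
    have hR := fun l (hl : l < N) => pol_rel (pos (Ψ i z) l) (pos (Ψ j z') l) (hE l hl)
    have e1 : ∀ l < N, (f (Ψ i z (l + 1))).re = (f (Ψ j z' (l + 1))).re := fun l hl => by
      have := (hR l hl).1
      rw [r1, r1] at this
      exact mul_left_cancel₀ (p1 l).ne' this
    obtain ⟨⟨s', hs'⟩, e2⟩ := turn_dvd m hm s
      (fun l => (f (Ψ j z' (l + 1))).im - (f (Ψ i z (l + 1))).im) N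
      (fun l _ => ⟨by linarith [(f1 (Ψ j z' (l + 1))).2.1, (f1 (Ψ i z (l + 1))).2.2],
        by linarith [(f1 (Ψ j z' (l + 1))).2.2, (f1 (Ψ i z (l + 1))).2.1]⟩) fun l hl => by
      obtain ⟨n, hn⟩ := (hR l hl).2
      refine ⟨n, ?_⟩
      rw [hΘ, turn_im, turn_im, t0, t0, t1, t1, r0, g4] at hn
      rw [← hn]
      ring
    refine C i j z z' hz hz' (fun l hl => hf.inj (Complex.ext (e1 l hl) ?_)) s' t
      (Complex.ext ?_ ?_)
    · linarith [e2 l hl]
    · rw [Complex.sub_re, r0, hs']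
      simp only [Complex.add_re, Complex.mul_re, Complex.intCast_re, Complex.ofReal_re,
        Complex.intCast_im, Complex.ofReal_im, Complex.I_re, Complex.I_im, Int.cast_mul,
        Int.cast_natCast]
      ring
    · have e3 : ∑ l ∈ range N, ((∏ l' ∈ range (l + 1), m l' : ℕ) : ℝ)⁻¹ *
          ((m l : ℝ) * (tl f (Ψ j z') (l + 1)).re) = ∑ l ∈ range N,
          ((∏ l' ∈ range (l + 1), m l' : ℕ) : ℝ)⁻¹ * ((m l : ℝ) * (tl f (Ψ i z) (l + 1)).re) :=
        sum_congr rfl fun l hl => by rw [t1, t1, e1 l (mem_range.1 hl)]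
      rw [r0, g5, e3] at r'
      rw [Complex.sub_im]
      simp only [Complex.add_im, Complex.mul_im, Complex.intCast_re, Complex.ofReal_re,
        Complex.intCast_im, Complex.ofReal_im, Complex.I_re, Complex.I_im] at r' ⊢
      linarith

end Pool.Agent.Lib.BallW
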